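import Mathlib

set_option autoImplicit false

namespace Pool.Agent.Results.MP_9f168b_al.Eight

open Function

/-- Involutive non-degenerate solution of the Yang-Baxter equation. -/
def IsSol {X : Type} (r : X × X → X × X) : Prop :=
  (∀ p, r (r p) = p) ∧ (∀ x, Bijective fun y => (r (x, y)).1) ∧
    (∀ y, Bijective fun x => (r (x, y)).2) ∧
    let a : X × X × X → X × X × X := fun p => ((r (p.1, p.2.1)).1, (r (p.1, p.2.1)).2, p.2.2)
    let b : X × X × X → X × X × X := fun p => (p.1, r p.2)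
    ∀ p, a (b (a p)) = b (a (b p))

abbrev X := Fin 2 × Fin 4

def sT : Fin 2 → Fin 4 → Fin 2 → Fin 4 → X :=
  ![![![![(0, 1), (0, 3), (0, 0), (0, 2)], ![(1, 2), (1, 3), (1, 0), (1, 1)]],
    ![![(1, 2), (1, 1), (1, 3), (1, 0)], ![(0, 2), (0, 3), (0, 1), (0, 0)]],
    ![![(0, 2), (0, 0), (0, 3), (0, 1)], ![(1, 2), (1, 3), (1, 0), (1, 1)]],
    ![![(1, 2), (1, 1), (1, 3), (1, 0)], ![(0, 1), (0, 0), (0, 2), (0, 3)]]],
   ![![![(0, 3), (0, 2), (0, 1), (0, 0)], ![(1, 3), (1, 0), (1, 1), (1, 2)]],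
    ![![(0, 3), (0, 2), (0, 1), (0, 0)], ![(1, 1), (1, 2), (1, 3), (1, 0)]],
    ![![(1, 3), (1, 2), (1, 0), (1, 1)], ![(0, 3), (0, 1), (0, 0), (0, 2)]],
    ![![(1, 1), (1, 0), (1, 2), (1, 3)], ![(0, 3), (0, 1), (0, 0), (0, 2)]]]]

def tT : Fin 2 → Fin 4 → Fin 2 → Fin 4 → X :=
  ![![![![(1, 3), (1, 1), (0, 0), (1, 0)], ![(0, 3), (0, 1), (0, 2), (1, 2)]],
    ![![(1, 1), (0, 2), (0, 3), (0, 0)], ![(1, 2), (1, 3), (0, 1), (1, 0)]],
    ![![(0, 2), (1, 1), (1, 2), (1, 0)], ![(0, 3), (0, 1), (1, 3), (0, 0)]],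
    ![![(0, 1), (0, 2), (1, 0), (0, 0)], ![(1, 2), (1, 3), (1, 1), (0, 3)]]],
   ![![![(1, 2), (0, 3), (1, 3), (1, 1)], ![(0, 1), (1, 0), (0, 0), (0, 2)]],
    ![![(1, 2), (1, 0), (1, 3), (0, 1)], ![(1, 1), (0, 3), (0, 0), (0, 2)]],
    ![![(0, 3), (1, 2), (0, 1), (0, 2)], ![(1, 3), (0, 0), (1, 0), (1, 1)]],
    ![![(0, 3), (0, 0), (0, 1), (1, 3)], ![(0, 2), (1, 2), (1, 0), (1, 1)]]]]

def s (x y : X) : X := sT x.1 x.2 y.1 y.2

def r (p : X × X) : X × X := (s p.1 p.2, tT p.2.1 p.2.2 p.1.1 p.1.2)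

def cyc : List (ℕ × ℕ) :=
  [(3, 5), (3, 4), (0, 7), (1, 5), (2, 6), (1, 7), (5, 3), (6, 0), (4, 1), (7, 2), (2, 4), (6, 7),
  (0, 2), (3, 0), (0, 3), (7, 5), (5, 7), (6, 4), (2, 1), (1, 2), (4, 6), (6, 2), (7, 1), (4, 5),
  (3, 1), (5, 6), (1, 0), (2, 3), (7, 4), (1, 4), (4, 0), (1, 6), (2, 7), (7, 3), (0, 4), (2, 0),
  (7, 6), (3, 2), (5, 4), (0, 1), (1, 3), (6, 5), (4, 7), (5, 0), (3, 6), (0, 5), (6, 3), (4, 2),
  (5, 1), (5, 2), (6, 1), (2, 5), (3, 7), (0, 6), (7, 0), (4, 3)]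

def pt (n : ℕ) : X := (Fin.ofNat 2 (n / 4), Fin.ofNat 4 n)

def c (i : Fin 56) : X × X := (pt (cyc.getD i (0, 0)).1, pt (cyc.getD i (0, 0)).2)

lemma c1 : ∀ i, ∃ z, c (i + 1) = (s (c i).1 z, s (c i).2 z) ∨
    c (i + 1) = (s z (c i).1, s z (c i).2) := by decide +kernel

lemma c2 : ∀ a b : X, a ≠ b → ∃ i, c i = (a, b) := by decide +kernel

theorem result : ∃ r : X × X → X × X, IsSol r ∧
    (∀ (X' : Type) (r' : X' × X' → X' × X') (f : X → X'), IsSol r' → Surjective f →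
      Prod.map f f ∘ r = r' ∘ Prod.map f f → Bijective f ∨ Nat.card X' = 1) ∧
    ∀ g ∈ Subgroup.closure {g : Equiv.Perm X | ∃ x, ∀ y, g y = (r (x, y)).1}, ∀ y, ∃ y',
      g '' {p | p.1 = y} = {p | p.1 = y'} := by
  refine ⟨r, ⟨by decide +kernel, by decide +kernel, by decide +kernel, by decide +kernel⟩,
    fun X' r' f _ hf h => ?_, fun g hg y => ?_⟩
  · refine or_iff_not_imp_left.2 fun k => ?_
    obtain ⟨a, b, e, ne⟩ := not_injective_iff.1 fun i => k ⟨i, hf⟩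
    have h1 : ∀ x y, f (s x y) = (r' (f x, f y)).1 := fun x y =>
      congrArg Prod.fst (congrFun h (x, y))
    obtain ⟨i, hi⟩ := c2 a b ne
    have all : ∀ n : ℕ, f (c (i + Fin.ofNat 56 n)).1 = f (c (i + Fin.ofNat 56 n)).2 := fun n => by
      induction n with
      | zero => simpa [hi] using e
      | succ n ih =>
        rw [show i + Fin.ofNat 56 (n + 1) = i + Fin.ofNat 56 n + 1 from Fin.ext (by
          simp [Fin.val_add]; omega)]
        obtain ⟨z, hz | hz⟩ := c1 (i + Fin.ofNat 56 n) <;> rw [hz, h1, h1, ih]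
    refine Nat.card_eq_one_iff_unique.2 ⟨⟨fun x y => ?_⟩, ⟨f 0⟩⟩
    obtain ⟨x, rfl⟩ := hf x
    obtain ⟨y, rfl⟩ := hf y
    by_contra ne
    obtain ⟨j, hj⟩ := c2 x y fun k => ne (congrArg f k)
    have := all (j - i).val
    rw [Fin.ofNat_val_eq_self, add_sub_cancel, hj] at this
    exact ne this
  · obtain ⟨c, hc⟩ : ∃ c : Fin 2, ∀ p, (g p).1 = p.1 + c := by
      induction hg using Subgroup.closure_induction with
      | mem g h =>
        obtain ⟨x, hx⟩ := h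
        simp only [hx]
        clear hx
        revert x
        decide +kernel
      | one => exact ⟨0, by simp⟩
      | mul g k _ _ a b =>
        obtain ⟨c, a⟩ := a
        obtain ⟨d, b⟩ := b
        exact ⟨d + c, fun p => by simp [a, b, add_assoc]⟩
      | inv g _ a =>
        obtain ⟨c, a⟩ := a
        exact ⟨-c, fun p => by rw [← sub_eq_add_neg, eq_sub_iff_add_eq, ← a]; simp⟩
    refine ⟨y + c, Set.ext fun p => ⟨?_, fun h => ⟨g⁻¹ p, ?_, by simp⟩⟩⟩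
    · rintro ⟨q, rfl, rfl⟩; exact hc q
    · have := hc (g⁻¹ p)
      rw [show g (g⁻¹ p) = p by simp] at this
      exact add_right_cancel (this.symm.trans h)

end Pool.Agent.Results.MP_9f168b_al.Eight
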